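import Mathlib

set_option autoImplicit false
open MeasureTheory

namespace Pool.Agent.Helper17.WS

/-- a new generator which is far from all quotients -/
theorem exists_far {ι : Type} [Countable ι] (M : ι → ℝ) (hM : ∀ x, 1 ≤ M x)
    (hs : Summable fun x => (Real.sqrt (M x))⁻¹) (Y0 : ℝ) :
    ∃ y : ℝ, Y0 < y ∧ ∀ (m : ℕ) (x x' : ι), 1 ≤ |M x * y ^ (m + 1) - M x'| := by
  set Z : ℝ := ∑' x, (Real.sqrt (M x))⁻¹ with hZ
  have hZ0 : 0 ≤ Z := tsum_nonneg fun x => by positivity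
  set Y : ℝ := max (max 8 Y0) ((8 * Z ^ 2 + 1) ^ 2) with hY
  have hY8 : 8 ≤ Y := le_trans (le_max_left _ _) (le_max_left _ _)
  have hYY0 : Y0 ≤ Y := le_trans (le_max_right _ _) (le_max_left _ _)
  have hYZ : (8 * Z ^ 2 + 1) ^ 2 ≤ Y := le_max_right _ _
  have hYpos : 0 < Y := by linarith
  have hsq : 8 * Z ^ 2 + 1 ≤ Real.sqrt Y := Real.le_sqrt_of_sq_le hYZ
  have hsqpos : 0 < Real.sqrt Y := Real.sqrt_pos.2 hYpos
  have hsqsq : Real.sqrt Y * Real.sqrt Y = Y := Real.mul_self_sqrt hYpos.le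
  by_contra hcon
  push Not at hcon
  -- the bad sets
  let B : ι × ι × ℕ → Set ℝ := fun p =>
    {y : ℝ | y ∈ Set.Ioo Y (2 * Y) ∧ |M p.1 * y ^ (p.2.2 + 1) - M p.2.1| < 1}
  have hcover : Set.Ioo Y (2 * Y) ⊆ ⋃ p, B p := by
    intro y hy
    obtain ⟨m, x, x', h⟩ := hcon y (lt_of_le_of_lt hYY0 hy.1)
    exact Set.mem_iUnion.2 ⟨(x, x', m), hy, h⟩
  set ρ : ℝ := Real.sqrt 2 / Real.sqrt Y with hρ
  have hρ0 : 0 ≤ ρ := by positivity
  have hρhalf : ρ ≤ 1 / 2 := by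
    rw [hρ, div_le_iff₀ hsqpos]
    have : Real.sqrt 2 * 2 ≤ Real.sqrt Y := by
      have h1 : Real.sqrt 2 * 2 = Real.sqrt 8 := by
        rw [show (8 : ℝ) = 2 * 2 ^ 2 by norm_num, Real.sqrt_mul (by norm_num),
          Real.sqrt_sq (by norm_num)]
      rw [h1]
      exact Real.sqrt_le_sqrt hY8
    linarith
  let bd : ι × ι × ℕ → ℝ := fun p =>
    (2 * Real.sqrt 2 * Y) * ((Real.sqrt (M p.1))⁻¹ * ((Real.sqrt (M p.2.1))⁻¹ * ρ ^ (p.2.2 + 1)))
  have hbd : ∀ p, volume (B p) ≤ ENNReal.ofReal (bd p) := by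
    rintro ⟨x, x', m⟩
    rcases Set.eq_empty_or_nonempty (B (x, x', m)) with he | ⟨y0, hy0, hy0'⟩
    · rw [he]; simp
    have hMx : 0 < M x := by linarith [hM x]
    have hMx' : 0 < M x' := by linarith [hM x']
    -- the diameter
    have hdiam : volume (B (x, x', m)) ≤ ENNReal.ofReal (2 / (M x * Y ^ m)) := by
      refine (Real.volume_le_diam _).trans ?_
      refine Metric.ediam_le fun u hu v hv => ?_
      rw [edist_dist]
      apply ENNReal.ofReal_le_ofReal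
      -- wlog
      have key : ∀ u v : ℝ, u ∈ B (x, x', m) → v ∈ B (x, x', m) → u ≤ v → v - u ≤ 2 / (M x * Y ^ m) := by
        intro u v hu hv huv
        obtain ⟨hu1, hu2⟩ := hu
        obtain ⟨hv1, hv2⟩ := hv
        simp only at hu2 hv2
        rw [abs_lt] at hu2 hv2
        have h1 : M x * (v ^ (m + 1) - u ^ (m + 1)) < 2 := by
          have := hu2.1; have := hv2.2; nlinarith
        have h2 : (v - u) * Y ^ m ≤ v ^ (m + 1) - u ^ (m + 1) := by
          have hu0 : 0 ≤ u := by linarith [hu1.1]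
          have hv0 : 0 ≤ v := by linarith [hv1.1]
          have h3 : Y ^ m ≤ v ^ m := pow_le_pow_left₀ hYpos.le hv1.1.le m
          have h4 : u ^ m ≤ v ^ m := pow_le_pow_left₀ hu0 huv m
          have h5 : v ^ (m + 1) - u ^ (m + 1) = (v - u) * v ^ m + u * (v ^ m - u ^ m) := by ring
          rw [h5]
          have h6 : (v - u) * Y ^ m ≤ (v - u) * v ^ m := mul_le_mul_of_nonneg_left h3 (by linarith)
          have h7 : 0 ≤ u * (v ^ m - u ^ m) := mul_nonneg hu0 (by linarith)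
          linarith
        rw [le_div_iff₀ (by positivity)]
        have h8 : M x * ((v - u) * Y ^ m) ≤ M x * (v ^ (m + 1) - u ^ (m + 1)) :=
          mul_le_mul_of_nonneg_left h2 hMx.le
        nlinarith
      rcases le_total u v with h | h
      · rw [Real.dist_eq, abs_sub_comm, abs_of_nonneg (by linarith)]
        exact key u v hu hv h
      · rw [Real.dist_eq, abs_of_nonneg (by linarith)]
        exact key v u hv hu h
    refine hdiam.trans (ENNReal.ofReal_le_ofReal ?_)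
    -- Rankin
    have hR : M x' ≤ 2 * M x * (2 * Y) ^ (m + 1) := by
      simp only at hy0'
      rw [abs_lt] at hy0'
      have h1 : y0 ^ (m + 1) ≤ (2 * Y) ^ (m + 1) :=
        pow_le_pow_left₀ (by linarith [hy0.1]) hy0.2.le _
      have h2 : 1 ≤ M x * (2 * Y) ^ (m + 1) := by
        have : (1 : ℝ) ≤ (2 * Y) ^ (m + 1) := one_le_pow₀ (by linarith)
        nlinarith [hM x]
      have h3 : M x * y0 ^ (m + 1) ≤ M x * (2 * Y) ^ (m + 1) :=
        mul_le_mul_of_nonneg_left h1 hMx.le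
      linarith [hy0'.1]
    have hsM : 0 < Real.sqrt (M x) := Real.sqrt_pos.2 hMx
    have hsM' : 0 < Real.sqrt (M x') := Real.sqrt_pos.2 hMx'
    have hs2 : 0 < Real.sqrt 2 := by positivity
    have hs2' : Real.sqrt 2 * Real.sqrt 2 = 2 := Real.mul_self_sqrt (by norm_num)
    have hR2 : Real.sqrt (M x') ≤ Real.sqrt 2 * Real.sqrt (M x) * (Real.sqrt 2 * Real.sqrt Y) ^ (m + 1) := by
      rw [Real.sqrt_le_iff]
      refine ⟨by positivity, ?_⟩
      have h1 : (Real.sqrt 2 * Real.sqrt (M x) * (Real.sqrt 2 * Real.sqrt Y) ^ (m + 1)) ^ 2 =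
          2 * M x * (2 * Y) ^ (m + 1) := by
        have h2 : (Real.sqrt 2 * Real.sqrt Y) ^ 2 = 2 * Y := by
          rw [mul_pow, Real.sq_sqrt (by norm_num), Real.sq_sqrt hYpos.le]
        have h3 : (Real.sqrt 2 * Real.sqrt (M x)) ^ 2 = 2 * M x := by
          rw [mul_pow, Real.sq_sqrt (by norm_num), Real.sq_sqrt hMx.le]
        rw [mul_pow, h3, ← pow_mul, mul_comm (m + 1) 2, pow_mul, h2]
      rw [h1]
      exact hR
    show 2 / (M x * Y ^ m) ≤ (2 * Real.sqrt 2 * Y) *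
      ((Real.sqrt (M x))⁻¹ * ((Real.sqrt (M x'))⁻¹ * ρ ^ (m + 1)))
    have e1 : M x = Real.sqrt (M x) * Real.sqrt (M x) := (Real.mul_self_sqrt hMx.le).symm
    have e2 : (2 * Real.sqrt 2 * Y) * ((Real.sqrt (M x))⁻¹ * ((Real.sqrt (M x'))⁻¹ * ρ ^ (m + 1))) =
        (2 * Real.sqrt 2 * Y * Real.sqrt 2 ^ (m + 1)) /
          (Real.sqrt (M x) * Real.sqrt (M x') * Real.sqrt Y ^ (m + 1)) := by
      rw [hρ, div_pow]
      field_simp
    rw [e2, div_le_div_iff₀ (by positivity) (by positivity)]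
    have e3 : Y ^ m * Y = Real.sqrt Y ^ (m + 1) * Real.sqrt Y ^ (m + 1) := by
      rw [← mul_pow, hsqsq, pow_succ]
    have e4 : 2 * (Real.sqrt (M x) * Real.sqrt (M x') * Real.sqrt Y ^ (m + 1)) ≤
        2 * (Real.sqrt (M x) * (Real.sqrt 2 * Real.sqrt (M x) * (Real.sqrt 2 * Real.sqrt Y) ^ (m + 1)) *
          Real.sqrt Y ^ (m + 1)) := by
      gcongr
    refine e4.trans (le_of_eq ?_)
    calc 2 * (Real.sqrt (M x) * (Real.sqrt 2 * Real.sqrt (M x) * (Real.sqrt 2 * Real.sqrt Y) ^ (m + 1)) *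
          Real.sqrt Y ^ (m + 1))
        = 2 * Real.sqrt 2 * Real.sqrt 2 ^ (m + 1) * (Real.sqrt (M x) * Real.sqrt (M x)) *
            (Real.sqrt Y ^ (m + 1) * Real.sqrt Y ^ (m + 1)) := by rw [mul_pow]; ring
      _ = 2 * Real.sqrt 2 * Real.sqrt 2 ^ (m + 1) * M x * (Y ^ m * Y) := by rw [← e1, ← e3]
      _ = 2 * Real.sqrt 2 * Y * Real.sqrt 2 ^ (m + 1) * (M x * Y ^ m) := by ring
  -- summation
  have hgeo : HasSum (fun m : ℕ => ρ ^ (m + 1)) (ρ * (1 - ρ)⁻¹) := by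
    have h := (hasSum_geometric_of_lt_one hρ0 (by linarith)).mul_left ρ
    have e : (fun m : ℕ => ρ ^ (m + 1)) = fun i : ℕ => ρ * ρ ^ i := by
      funext m
      rw [pow_succ]; ring
    rw [e]; exact h
  have hsum1 : HasSum (fun p : ι × ℕ => (Real.sqrt (M p.1))⁻¹ * ρ ^ (p.2 + 1)) (Z * (ρ * (1 - ρ)⁻¹)) :=
    hs.hasSum.mul hgeo (Summable.mul_of_nonneg hs hgeo.summable (fun x => by positivity)
      (fun m => by positivity))
  have hsum2 : HasSum (fun p : ι × ι × ℕ => (Real.sqrt (M p.1))⁻¹ *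
      ((Real.sqrt (M p.2.1))⁻¹ * ρ ^ (p.2.2 + 1))) (Z * (Z * (ρ * (1 - ρ)⁻¹))) :=
    hs.hasSum.mul hsum1 (Summable.mul_of_nonneg hs hsum1.summable (fun x => by positivity)
      (fun p => by positivity))
  have hsum3 : HasSum bd ((2 * Real.sqrt 2 * Y) * (Z * (Z * (ρ * (1 - ρ)⁻¹)))) :=
    hsum2.mul_left _
  have hvol : ENNReal.ofReal Y ≤ ENNReal.ofReal ((2 * Real.sqrt 2 * Y) * (Z * (Z * (ρ * (1 - ρ)⁻¹)))) := by
    calc ENNReal.ofReal Y = volume (Set.Ioo Y (2 * Y)) := by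
          rw [Real.volume_Ioo]; congr 1; ring
      _ ≤ volume (⋃ p, B p) := measure_mono hcover
      _ ≤ ∑' p, volume (B p) := measure_iUnion_le _
      _ ≤ ∑' p, ENNReal.ofReal (bd p) := ENNReal.tsum_le_tsum hbd
      _ = ENNReal.ofReal (∑' p, bd p) :=
          (ENNReal.ofReal_tsum_of_nonneg (fun p => by positivity) hsum3.summable).symm
      _ = _ := by rw [hsum3.tsum_eq]
  have h1ρ : (1 - ρ)⁻¹ ≤ 2 := by
    rw [inv_le_comm₀ (by linarith) (by norm_num)]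
    linarith
  have hfinal : Y ≤ (2 * Real.sqrt 2 * Y) * (Z * (Z * (ρ * (1 - ρ)⁻¹))) := by
    rwa [ENNReal.ofReal_le_ofReal_iff] at hvol
    have : 0 ≤ (1 - ρ)⁻¹ := inv_nonneg.2 (by linarith)
    positivity
  have hup : (2 * Real.sqrt 2 * Y) * (Z * (Z * (ρ * (1 - ρ)⁻¹))) ≤ 8 * Z ^ 2 * Real.sqrt Y := by
    have h1 : (2 * Real.sqrt 2 * Y) * (Z * (Z * (ρ * (1 - ρ)⁻¹))) ≤
        (2 * Real.sqrt 2 * Y) * (Z * (Z * (ρ * 2))) := by
      gcongr
    refine h1.trans (le_of_eq ?_)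
    have h2 : Real.sqrt 2 * Real.sqrt 2 = 2 := Real.mul_self_sqrt (by norm_num)
    have h3 : Y / Real.sqrt Y = Real.sqrt Y := Real.div_sqrt
    calc (2 * Real.sqrt 2 * Y) * (Z * (Z * (ρ * 2)))
        = 4 * (Real.sqrt 2 * Real.sqrt 2) * Z ^ 2 * (Y / Real.sqrt Y) := by rw [hρ]; ring
      _ = 8 * Z ^ 2 * Real.sqrt Y := by rw [h2, h3]; ring
  have : (8 * Z ^ 2 + 1) * Real.sqrt Y ≤ Y := by
    calc (8 * Z ^ 2 + 1) * Real.sqrt Y ≤ Real.sqrt Y * Real.sqrt Y :=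
          mul_le_mul_of_nonneg_right hsq hsqpos.le
      _ = Y := hsqsq
  linarith

end Pool.Agent.Helper17.WS
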