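import Pool.Agent.Helper17.WS.Three

set_option autoImplicit false

namespace Pool.Agent.Helper17.WS

noncomputable def g : ℝ := 3 / 2

noncomputable def ga : ℝ := g ^ ea
noncomputable def gb : ℝ := g ^ eb
noncomputable def gc : ℝ := g ^ ec

theorem g_pos : 0 < g := by unfold g; norm_num

theorem ea_pos : 0 < ea := by unfold ea; linarith [th_pos]
theorem eb_pos : 0 < eb := by unfold eb; have := th_pos; positivity
theorem ec_pos : 0 < ec := by unfold ec; linarith [th_pos]

/-- lower bounds for a power from a rational lower bound of the exponent -/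
theorem lower_of (p q : ℕ) (hq : 0 < q) (e u : ℝ) (hu : 0 ≤ u) (he : (p : ℝ) / q ≤ e)
    (h : u ^ q ≤ (3 / 2 : ℝ) ^ p) : u ≤ g ^ e := by
  have h1 : g ^ ((p : ℝ) / q) ≤ g ^ e :=
    Real.rpow_le_rpow_of_exponent_le (by unfold g; norm_num) he
  refine le_trans ?_ h1
  have hqR : (0 : ℝ) < q := by exact_mod_cast hq
  rw [div_eq_mul_inv, Real.rpow_mul g_pos.le, Real.rpow_natCast]
  rw [Real.le_rpow_inv_iff_of_pos hu (pow_nonneg g_pos.le _) hqR, Real.rpow_natCast]
  exact h

theorem upper_of (p q : ℕ) (hq : 0 < q) (e u : ℝ) (hu : 0 ≤ u) (he : e ≤ (p : ℝ) / q)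
    (h : (3 / 2 : ℝ) ^ p ≤ u ^ q) : g ^ e ≤ u := by
  have h1 : g ^ e ≤ g ^ ((p : ℝ) / q) :=
    Real.rpow_le_rpow_of_exponent_le (by unfold g; norm_num) he
  refine le_trans h1 ?_
  have hqR : (0 : ℝ) < q := by exact_mod_cast hq
  rw [div_eq_mul_inv, Real.rpow_mul g_pos.le, Real.rpow_natCast]
  rw [Real.rpow_inv_le_iff_of_pos (pow_nonneg g_pos.le _) hu hqR, Real.rpow_natCast]
  exact h

theorem frac_lo (U p q : ℕ) (h : U ^ q * 2 ^ p ≤ 3 ^ p * 10000 ^ q) :
    ((U : ℝ) / 10000) ^ q ≤ (3 / 2 : ℝ) ^ p := by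
  rw [div_pow, div_pow, div_le_div_iff₀ (by positivity) (by positivity)]
  exact_mod_cast h

theorem frac_hi (U p q : ℕ) (h : 3 ^ p * 10000 ^ q ≤ U ^ q * 2 ^ p) :
    (3 / 2 : ℝ) ^ p ≤ ((U : ℝ) / 10000) ^ q := by
  rw [div_pow, div_pow, div_le_div_iff₀ (by positivity) (by positivity)]
  exact_mod_cast h

theorem ga_lower : (25000 / 10000 : ℝ) ≤ ga := by
  refine lower_of 513 227 (by norm_num) ea _ (by norm_num) ?_ (frac_lo 25000 513 227 (by decide +kernel))
  unfold ea; have := th_lower; push_cast; linarith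

theorem ga_upper : ga ≤ (25001 / 10000 : ℝ) := by
  refine upper_of 626 277 (by norm_num) ea _ (by norm_num) ?_ (frac_hi 25001 626 277 (by decide +kernel))
  unfold ea; have := th_upper; push_cast; linarith

theorem gb_lower : (36228 / 10000 : ℝ) ≤ gb := by
  refine lower_of 1562 492 (by norm_num) eb _ (by norm_num) ?_ (frac_lo 36228 1562 492 (by decide +kernel))
  unfold eb; have := th2_lower; push_cast; linarith

theorem gb_upper : gb ≤ (36230 / 10000 : ℝ) := by
  refine upper_of 454 143 (by norm_num) eb _ (by norm_num) ?_ (frac_hi 36230 454 143 (by decide +kernel))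
  unfold eb; have := th2_upper; push_cast; linarith

theorem gc_lower : (46299 / 10000 : ℝ) ≤ gc := by
  refine lower_of 858 227 (by norm_num) ec _ (by norm_num) ?_ (frac_lo 46299 858 227 (by decide +kernel))
  unfold ec; have := th_lower; push_cast; linarith

theorem gc_upper : gc ≤ (46301 / 10000 : ℝ) := by
  refine upper_of 1047 277 (by norm_num) ec _ (by norm_num) ?_ (frac_hi 46301 1047 277 (by decide +kernel))
  unfold ec; have := th_upper; push_cast; linarith

end Pool.Agent.Helper17.WS
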