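import Pool.Agent.Helper17.WS.Gen

set_option autoImplicit false

namespace Pool.Agent.Helper17.WS

/-- the monomials in the three generators -/
noncomputable def mon (i j k : ℕ) : ℝ := ga ^ i * gb ^ j * gc ^ k

theorem mon_eq (i j k : ℕ) : mon i j k = g ^ (i * ea + j * eb + k * ec) := by
  unfold mon ga gb gc
  rw [Real.rpow_add g_pos, Real.rpow_add g_pos]
  rw [mul_comm (i : ℝ) ea, mul_comm (j : ℝ) eb, mul_comm (k : ℝ) ec]
  rw [Real.rpow_mul g_pos.le, Real.rpow_mul g_pos.le, Real.rpow_mul g_pos.le]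
  rw [Real.rpow_natCast, Real.rpow_natCast, Real.rpow_natCast]

theorem sep_far (E1 E2 : ℝ) (h : E2 + 1 ≤ E1) (h3 : 3 ≤ E1) : 1 ≤ g ^ E1 - g ^ E2 := by
  have h1 : g ^ E2 ≤ g ^ (E1 - 1) :=
    Real.rpow_le_rpow_of_exponent_le (by unfold g; norm_num) (by linarith)
  have h2 : g ^ (E1 - 1) = g ^ E1 / g := by
    rw [Real.rpow_sub g_pos, Real.rpow_one]
  have h4 : (3 : ℝ) ≤ g ^ E1 := by
    have h5 : g ^ (3 : ℝ) ≤ g ^ E1 :=
      Real.rpow_le_rpow_of_exponent_le (by unfold g; norm_num) h3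
    have h6 : g ^ (3 : ℝ) = 27 / 8 := by
      rw [show (3 : ℝ) = ((3 : ℕ) : ℝ) by norm_num, Real.rpow_natCast]; unfold g; norm_num
    linarith
  have h7 : g ^ E1 / g = g ^ E1 * (2 / 3) := by unfold g; ring
  rw [h2, h7] at h1
  linarith

theorem growth (n : ℕ) (hn : 23 ≤ n) : 3 * (2 * (n : ℝ) + 3) ^ 2 ≤ (3 / 2 : ℝ) ^ n := by
  induction n, hn using Nat.le_induction with
  | base => norm_num
  | succ n hn ih =>
    have hnR : (23 : ℝ) ≤ n := by exact_mod_cast hn
    have e : (3 / 2 : ℝ) ^ (n + 1) = (3 / 2 : ℝ) ^ n * (3 / 2) := pow_succ _ _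
    rw [e]
    push_cast
    nlinarith

theorem sep_near (E1 E2 : ℝ) (h : E2 < E1) (hX : E1 - E2 < 1) (hE : 24 ≤ E1)
    (hL : 1 ≤ (E1 - E2) * (E1 + E2) ^ 2) : 1 ≤ g ^ E1 - g ^ E2 := by
  have hE2 : 23 ≤ E2 := by linarith
  set X := E1 - E2 with hXd
  have hX0 : 0 < X := by linarith
  have hlog : (1 / 3 : ℝ) ≤ Real.log g := by
    have := Real.one_sub_inv_le_log_of_pos g_pos
    unfold g at *
    norm_num at this ⊢
    linarith
  have h1 : 1 + X / 3 ≤ g ^ X := by
    rw [Real.rpow_def_of_pos g_pos]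
    have := Real.add_one_le_exp (Real.log g * X)
    nlinarith
  have h2 : g ^ E1 = g ^ E2 * g ^ X := by
    rw [← Real.rpow_add g_pos]; congr 1; rw [hXd]; ring
  have hpos : 0 < g ^ E2 := Real.rpow_pos_of_pos g_pos _
  -- growth
  set n := ⌊E2⌋₊ with hn
  have hn1 : (n : ℝ) ≤ E2 := Nat.floor_le (by linarith)
  have hn2 : E2 < n + 1 := Nat.lt_floor_add_one E2
  have hn3 : 23 ≤ n := Nat.le_floor (by exact_mod_cast hE2)
  have h3 : 3 * (2 * (n : ℝ) + 3) ^ 2 ≤ g ^ E2 := by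
    refine (growth n hn3).trans ?_
    have h4 : g ^ (n : ℝ) ≤ g ^ E2 :=
      Real.rpow_le_rpow_of_exponent_le (by unfold g; norm_num) hn1
    rw [Real.rpow_natCast] at h4
    exact h4
  have h5 : E1 + E2 ≤ 2 * (n : ℝ) + 3 := by linarith
  have h6 : (E1 + E2) ^ 2 ≤ (2 * (n : ℝ) + 3) ^ 2 := pow_le_pow_left₀ (by linarith) h5 2
  have h7 : 3 ≤ X * g ^ E2 := by
    calc (3 : ℝ) ≤ 3 * (X * (E1 + E2) ^ 2) := by linarith
      _ ≤ X * (3 * (2 * (n : ℝ) + 3) ^ 2) := by nlinarith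
      _ ≤ X * g ^ E2 := mul_le_mul_of_nonneg_left h3 hX0.le
  rw [h2]
  nlinarith

/-- lower and upper bounds as fractions -/
def lo (i j k : ℕ) : ℕ := 25000 ^ i * 36228 ^ j * 46299 ^ k
def hi (i j k : ℕ) : ℕ := 25001 ^ i * 36230 ^ j * 46301 ^ k
def dn (i j k : ℕ) : ℕ := 10000 ^ (i + j + k)

theorem lo_le (i j k : ℕ) : (lo i j k : ℝ) / dn i j k ≤ mon i j k := by
  have e : (lo i j k : ℝ) / dn i j k = (25000 / 10000 : ℝ) ^ i * (36228 / 10000 : ℝ) ^ j *
      (46299 / 10000 : ℝ) ^ k := by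
    unfold lo dn
    push_cast
    rw [pow_add, pow_add, div_pow, div_pow, div_pow]
    field_simp
  rw [e]; unfold mon
  have h1 := ga_lower; have h2 := gb_lower; have h3 := gc_lower
  have p1 : 0 ≤ ga := by linarith
  have p2 : 0 ≤ gb := by linarith
  gcongr

theorem le_hi (i j k : ℕ) : mon i j k ≤ (hi i j k : ℝ) / dn i j k := by
  have e : (hi i j k : ℝ) / dn i j k = (25001 / 10000 : ℝ) ^ i * (36230 / 10000 : ℝ) ^ j *
      (46301 / 10000 : ℝ) ^ k := by
    unfold hi dn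
    push_cast
    rw [pow_add, pow_add, div_pow, div_pow, div_pow]
    field_simp
  rw [e]; unfold mon
  have h1 := ga_upper; have h2 := gb_upper; have h3 := gc_upper
  have p1 : 0 ≤ ga := by linarith [ga_lower]
  have p2 : 0 ≤ gb := by linarith [gb_lower]
  have p3 : 0 ≤ gc := by linarith [gc_lower]
  gcongr

def chk (s t u : ℤ) : Bool :=
  decide ((hi (-s).toNat (-t).toNat (-u).toNat + dn (-s).toNat (-t).toNat (-u).toNat) *
      dn s.toNat t.toNat u.toNat ≤ lo s.toNat t.toNat u.toNat * dn (-s).toNat (-t).toNat (-u).toNat) ||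
  decide ((hi s.toNat t.toNat u.toNat + dn s.toNat t.toNat u.toNat) *
      dn (-s).toNat (-t).toNat (-u).toNat ≤
        lo (-s).toNat (-t).toNat (-u).toNat * dn s.toNat t.toNat u.toNat)

theorem chk_sound (s t u : ℤ) (h : chk s t u = true) :
    1 ≤ |mon s.toNat t.toNat u.toNat - mon (-s).toNat (-t).toNat (-u).toNat| := by
  unfold chk at h
  rw [Bool.or_eq_true, decide_eq_true_iff, decide_eq_true_iff] at h
  have key : ∀ i j k i' j' k' : ℕ,
      (hi i' j' k' + dn i' j' k') * dn i j k ≤ lo i j k * dn i' j' k' →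
      1 ≤ mon i j k - mon i' j' k' := by
    intro i j k i' j' k' h
    have hR : ((hi i' j' k' : ℝ) + dn i' j' k') * dn i j k ≤ lo i j k * dn i' j' k' := by
      exact_mod_cast h
    have hd : (0 : ℝ) < dn i j k := by unfold dn; positivity
    have hd' : (0 : ℝ) < dn i' j' k' := by unfold dn; positivity
    have h1 : ((hi i' j' k' : ℝ) + dn i' j' k') / dn i' j' k' ≤ lo i j k / dn i j k := by
      rw [div_le_div_iff₀ hd' hd]; exact hR
    rw [add_div, div_self hd'.ne'] at h1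
    have := lo_le i j k
    have := le_hi i' j' k'
    linarith
  rcases h with h | h
  · exact le_trans (key _ _ _ _ _ _ h) (le_abs_self _)
  · rw [abs_sub_comm]; exact le_trans (key _ _ _ _ _ _ h) (le_abs_self _)

theorem chk_all : ((List.range 21).all fun s => (List.range 15).all fun t => (List.range 13).all fun u =>
    (s == 10 && t == 7 && u == 6) || chk ((s : ℤ) - 10) ((t : ℤ) - 7) ((u : ℤ) - 6)) = true := by
  decide +kernel

theorem chk_range (s t u : ℤ) (hs : -10 ≤ s ∧ s ≤ 10) (ht : -7 ≤ t ∧ t ≤ 7) (hu : -6 ≤ u ∧ u ≤ 6)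
    (h : ¬ (s = 0 ∧ t = 0 ∧ u = 0)) : chk s t u = true := by
  have h0 := chk_all
  rw [List.all_eq_true] at h0
  have h1 := h0 (s + 10).toNat (List.mem_range.2 (by omega))
  rw [List.all_eq_true] at h1
  have h2 := h1 (t + 7).toNat (List.mem_range.2 (by omega))
  rw [List.all_eq_true] at h2
  have h3 := h2 (u + 6).toNat (List.mem_range.2 (by omega))
  have e1 : (((s + 10).toNat : ℕ) : ℤ) - 10 = s := by omega
  have e2 : (((t + 7).toNat : ℕ) : ℤ) - 7 = t := by omega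
  have e3 : (((u + 6).toNat : ℕ) : ℤ) - 6 = u := by omega
  rw [e1, e2, e3, Bool.or_eq_true] at h3
  rcases h3 with h3 | h3
  · exfalso
    simp only [Bool.and_eq_true, beq_iff_eq] at h3
    omega
  · exact h3

theorem ea_bounds : (9 / 4 : ℝ) ≤ ea := by unfold ea; have := th_lower; linarith
theorem eb_bounds : (317 / 100 : ℝ) ≤ eb := by unfold eb; have := th2_lower; linarith
theorem ec_bounds : (377 / 100 : ℝ) ≤ ec := by unfold ec; have := th_lower; linarith

theorem sep_signed (s t u : ℤ) (h : ¬ (s = 0 ∧ t = 0 ∧ u = 0)) :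
    1 ≤ |mon s.toNat t.toNat u.toNat - mon (-s).toNat (-t).toNat (-u).toNat| := by
  by_cases hr : (-10 ≤ s ∧ s ≤ 10) ∧ (-7 ≤ t ∧ t ≤ 7) ∧ (-6 ≤ u ∧ u ≤ 6)
  · exact chk_sound s t u (chk_range s t u hr.1 hr.2.1 hr.2.2 h)
  have hlin := linear_form s t u h
  rw [mon_eq, mon_eq]
  set E1 : ℝ := (s.toNat : ℝ) * ea + (t.toNat : ℝ) * eb + (u.toNat : ℝ) * ec with hE1
  set E2 : ℝ := ((-s).toNat : ℝ) * ea + ((-t).toNat : ℝ) * eb + ((-u).toNat : ℝ) * ec with hE2
  have hsub : ∀ v : ℤ, (v.toNat : ℝ) - ((-v).toNat : ℝ) = v := by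
    intro v
    have : ((v.toNat : ℕ) : ℤ) - (((-v).toNat : ℕ) : ℤ) = v := by omega
    exact_mod_cast this
  have hadd : ∀ v : ℤ, (v.toNat : ℝ) + ((-v).toNat : ℝ) = |(v : ℝ)| := by
    intro v
    have : ((v.toNat : ℕ) : ℤ) + (((-v).toNat : ℕ) : ℤ) = |v| := by
      rcases le_total 0 v with h | h
      · rw [abs_of_nonneg h]; omega
      · rw [abs_of_nonpos h]; omega
    exact_mod_cast this
  have hXeq : (s : ℝ) * ea + t * eb + u * ec = E1 - E2 := by
    rw [hE1, hE2, ← hsub s, ← hsub t, ← hsub u]; ring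
  have hSeq : |(s : ℝ) * ea| + |(t : ℝ) * eb| + |(u : ℝ) * ec| = E1 + E2 := by
    rw [abs_mul, abs_mul, abs_mul, abs_of_pos ea_pos, abs_of_pos eb_pos, abs_of_pos ec_pos,
      ← hadd s, ← hadd t, ← hadd u, hE1, hE2]; ring
  rw [hXeq, hSeq] at hlin
  have ha := ea_bounds; have hb := eb_bounds; have hc := ec_bounds
  -- one of the exponents is large
  have hlarge : 247 / 10 ≤ E1 ∨ 247 / 10 ≤ E2 := by
    have nn : ∀ v : ℤ, (0 : ℝ) ≤ (v.toNat : ℝ) := fun v => by positivity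
    have q1 := mul_nonneg (nn s) ea_pos.le; have q2 := mul_nonneg (nn t) eb_pos.le
    have q3 := mul_nonneg (nn u) ec_pos.le
    have q1' := mul_nonneg (nn (-s)) ea_pos.le; have q2' := mul_nonneg (nn (-t)) eb_pos.le
    have q3' := mul_nonneg (nn (-u)) ec_pos.le
    have hcases : 11 ≤ s.toNat ∨ 11 ≤ (-s).toNat ∨ 8 ≤ t.toNat ∨ 8 ≤ (-t).toNat ∨
        7 ≤ u.toNat ∨ 7 ≤ (-u).toNat := by omega
    rcases hcases with h1 | h1 | h1 | h1 | h1 | h1
    · left
      have h2 : (11 : ℝ) ≤ (s.toNat : ℝ) := by exact_mod_cast h1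
      rw [hE1]; nlinarith
    · right
      have h2 : (11 : ℝ) ≤ ((-s).toNat : ℝ) := by exact_mod_cast h1
      rw [hE2]; nlinarith
    · left
      have h2 : (8 : ℝ) ≤ (t.toNat : ℝ) := by exact_mod_cast h1
      rw [hE1]; nlinarith
    · right
      have h2 : (8 : ℝ) ≤ ((-t).toNat : ℝ) := by exact_mod_cast h1
      rw [hE2]; nlinarith
    · left
      have h2 : (7 : ℝ) ≤ (u.toNat : ℝ) := by exact_mod_cast h1
      rw [hE1]; nlinarith
    · right
      have h2 : (7 : ℝ) ≤ ((-u).toNat : ℝ) := by exact_mod_cast h1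
      rw [hE2]; nlinarith
  have hne : E1 ≠ E2 := by
    intro he
    rw [he, sub_self, abs_zero, zero_mul] at hlin
    linarith
  have key : ∀ F1 F2 : ℝ, F2 < F1 → (247 / 10 ≤ F1 ∨ 247 / 10 ≤ F2) → 1 ≤ |F1 - F2| * (F1 + F2) ^ 2 →
      1 ≤ g ^ F1 - g ^ F2 := by
    intro F1 F2 hlt hl hF
    have hF1 : 247 / 10 ≤ F1 := by
      rcases hl with hl | hl
      · exact hl
      · linarith
    by_cases hX : F2 + 1 ≤ F1
    · exact sep_far F1 F2 hX (by linarith)
    · push Not at hX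
      rw [abs_of_pos (by linarith)] at hF
      exact sep_near F1 F2 hlt (by linarith) (by linarith) hF
  rcases lt_or_gt_of_ne hne with hlt | hlt
  · rw [abs_sub_comm]
    refine le_trans (key E2 E1 hlt hlarge.symm ?_) (le_abs_self _)
    rw [abs_sub_comm, add_comm E2 E1]; exact hlin
  · exact le_trans (key E1 E2 hlt hlarge hlin) (le_abs_self _)

theorem mon_add (i j k i' j' k' : ℕ) : mon (i + i') (j + j') (k + k') = mon i j k * mon i' j' k' := by
  unfold mon; ring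

theorem one_le_mon (i j k : ℕ) : 1 ≤ mon i j k := by
  unfold mon
  have h1 : 1 ≤ ga ^ i := one_le_pow₀ (by linarith [ga_lower])
  have h2 : 1 ≤ gb ^ j := one_le_pow₀ (by linarith [gb_lower])
  have h3 : 1 ≤ gc ^ k := one_le_pow₀ (by linarith [gc_lower])
  nlinarith [mul_nonneg (sub_nonneg.2 h1) (sub_nonneg.2 h2)]

/-- the monomials in the three generators are well separated -/
theorem sep3 (i j k i' j' k' : ℕ) (h : ¬ (i = i' ∧ j = j' ∧ k = k')) :
    1 ≤ |mon i j k - mon i' j' k'| := by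
  have h1 := sep_signed ((i : ℤ) - i') ((j : ℤ) - j') ((k : ℤ) - k') (by omega)
  have e1 : mon i j k = mon (min i i') (min j j') (min k k') *
      mon ((i : ℤ) - i').toNat ((j : ℤ) - j').toNat ((k : ℤ) - k').toNat := by
    rw [← mon_add]; congr 1 <;> omega
  have e2 : mon i' j' k' = mon (min i i') (min j j') (min k k') *
      mon (-((i : ℤ) - i')).toNat (-((j : ℤ) - j')).toNat (-((k : ℤ) - k')).toNat := by
    rw [← mon_add]; congr 1 <;> omega
  rw [e1, e2, ← mul_sub, abs_mul, abs_of_nonneg (by linarith [one_le_mon (min i i') (min j j') (min k k')])]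
  nlinarith [one_le_mon (min i i') (min j j') (min k k'), abs_nonneg
    (mon ((i : ℤ) - i').toNat ((j : ℤ) - j').toNat ((k : ℤ) - k').toNat -
      mon (-((i : ℤ) - i')).toNat (-((j : ℤ) - j')).toNat (-((k : ℤ) - k')).toNat)]

end Pool.Agent.Helper17.WS
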