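import Pool.Agent.Helper17.WS.Ext
import Pool.Agent.Helper17.WS.Sep3

set_option autoImplicit false

namespace Pool.Agent.Helper17.WS

theorem summable_prod_geometric (n : ℕ) : ∀ (r : Fin n → ℝ), (∀ i, 0 ≤ r i) → (∀ i, r i < 1) →
    Summable (fun v : Fin n → ℕ => ∏ i, r i ^ v i) := by
  induction n with
  | zero => intro r _ _; exact Summable.of_finite
  | succ n ih =>
    intro r h0 h1
    have h2 := ih (fun i => r i.succ) (fun i => h0 _) (fun i => h1 _)
    have h3 : Summable (fun m : ℕ => r 0 ^ m) := summable_geometric_of_lt_one (h0 0) (h1 0)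
    have h4 : Summable (fun p : ℕ × (Fin n → ℕ) => r 0 ^ p.1 * ∏ i : Fin n, r i.succ ^ p.2 i) :=
      Summable.mul_of_nonneg h3 h2 (fun m => pow_nonneg (h0 0) m)
        (fun v => Finset.prod_nonneg fun i _ => pow_nonneg (h0 _) _)
    rw [← (Fin.consEquiv (fun _ : Fin (n + 1) => ℕ)).summable_iff]
    refine h4.congr fun p => ?_
    rw [Function.comp_apply, Fin.prod_univ_succ]
    simp [Fin.consEquiv]

/-- the products -/
noncomputable def W (a : ℕ → ℝ) (n : ℕ) (v : ℕ → ℕ) : ℝ := ∏ i ∈ Finset.range n, a i ^ v i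

/-- the first `n` terms are well separated -/
def Good (n : ℕ) (a : ℕ → ℝ) : Prop :=
  (∀ i < n, 2 ≤ a i) ∧ (∀ i j, i < j → j < n → a i < a j) ∧
    ∀ v w : ℕ → ℕ, (∃ i < n, v i ≠ w i) → 1 ≤ |W a n v - W a n w|

theorem one_le_W (a : ℕ → ℝ) (n : ℕ) (h : ∀ i < n, 2 ≤ a i) (v : ℕ → ℕ) : 1 ≤ W a n v := by
  unfold W
  rw [← Finset.prod_const_one (s := Finset.range n)]
  exact Finset.prod_le_prod (fun _ _ => zero_le_one) fun i hi =>
    one_le_pow₀ (by linarith [h i (Finset.mem_range.1 hi)])

theorem W_update (a : ℕ → ℝ) (n : ℕ) (y : ℝ) (v : ℕ → ℕ) :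
    W (Function.update a n y) (n + 1) v = W a n v * y ^ v n := by
  unfold W
  rw [Finset.prod_range_succ, Function.update_self]
  congr 1
  refine Finset.prod_congr rfl fun i hi => ?_
  rw [Function.update_of_ne (Finset.mem_range.1 hi).ne]

theorem step (n : ℕ) (a : ℕ → ℝ) (h : Good n a) : ∃ y : ℝ, Good (n + 1) (Function.update a n y) := by
  obtain ⟨h1, h2, h3⟩ := h
  let M : (Fin n → ℕ) → ℝ := fun v => ∏ i : Fin n, a i ^ v i
  have hMW : ∀ v : ℕ → ℕ, W a n v = M (fun i => v i) := fun v => by
    show ∏ i ∈ Finset.range n, a i ^ v i = ∏ i : Fin n, a i ^ v i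
    rw [Finset.prod_range]
  have hM1 : ∀ v, 1 ≤ M v := by
    intro v
    show 1 ≤ ∏ i : Fin n, a i ^ v i
    rw [← Finset.prod_const_one (s := (Finset.univ : Finset (Fin n)))]
    exact Finset.prod_le_prod (fun _ _ => zero_le_one) fun i _ =>
      one_le_pow₀ (by linarith [h1 i i.2])
  have hsum : Summable fun v => (Real.sqrt (M v))⁻¹ := by
    have hs := summable_prod_geometric n (fun i => (Real.sqrt (a i))⁻¹) (fun i => by positivity)
      (fun i => by
        have : 1 < Real.sqrt (a i) := by
          rw [Real.lt_sqrt (by norm_num)]; linarith [h1 i i.2]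
        exact inv_lt_one_of_one_lt₀ this)
    refine hs.congr fun v => ?_
    have hsq : Real.sqrt (M v) = ∏ i : Fin n, Real.sqrt (a i) ^ v i := by
      rw [Real.sqrt_eq_iff_eq_sq (by linarith [hM1 v]) (by positivity)]
      show ∏ i : Fin n, a i ^ v i = _
      rw [← Finset.prod_pow]
      refine Finset.prod_congr rfl fun i _ => ?_
      rw [← pow_mul, mul_comm (v i) 2, pow_mul, Real.sq_sqrt (by linarith [h1 i i.2])]
    rw [hsq, ← Finset.prod_inv_distrib]
    exact Finset.prod_congr rfl fun i _ => by rw [inv_pow]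
  obtain ⟨y, hy, hfar⟩ := exists_far M hM1 hsum (2 + ∑ i ∈ Finset.range n, |a i|)
  have hya : ∀ i < n, a i < y := by
    intro i hi
    have h4 : |a i| ≤ ∑ i ∈ Finset.range n, |a i| :=
      Finset.single_le_sum (f := fun i => |a i|) (fun _ _ => abs_nonneg _) (Finset.mem_range.2 hi)
    have := le_abs_self (a i)
    linarith
  have hy2 : 2 ≤ y := by
    have : 0 ≤ ∑ i ∈ Finset.range n, |a i| := Finset.sum_nonneg fun _ _ => abs_nonneg _
    linarith
  refine ⟨y, ?_, ?_, ?_⟩
  · intro i hi
    rcases Nat.lt_succ_iff_lt_or_eq.1 hi with h | rfl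
    · rw [Function.update_of_ne h.ne]; exact h1 i h
    · rw [Function.update_self]; exact hy2
  · intro i j hij hj
    rcases Nat.lt_succ_iff_lt_or_eq.1 hj with h | rfl
    · rw [Function.update_of_ne h.ne, Function.update_of_ne (hij.trans h).ne]; exact h2 i j hij h
    · rw [Function.update_self, Function.update_of_ne hij.ne]; exact hya i hij
  · have key : ∀ v w : ℕ → ℕ, w n < v n →
        1 ≤ |W (Function.update a n y) (n + 1) v - W (Function.update a n y) (n + 1) w| := by
      intro v w hvw
      obtain ⟨m, hm⟩ : ∃ m, v n = w n + (m + 1) := ⟨v n - w n - 1, by omega⟩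
      rw [W_update, W_update, hm, pow_add, hMW v, hMW w]
      have h4 := hfar m (fun i => v i) (fun i => w i)
      have h5 : (1 : ℝ) ≤ y ^ w n := one_le_pow₀ (by linarith)
      have e : M (fun i => v i) * (y ^ w n * y ^ (m + 1)) - M (fun i => w i) * y ^ w n =
          y ^ w n * (M (fun i => v i) * y ^ (m + 1) - M (fun i => w i)) := by ring
      rw [e, abs_mul, abs_of_nonneg (by linarith)]
      nlinarith [abs_nonneg (M (fun i => v i) * y ^ (m + 1) - M (fun i => w i))]
    intro v w hvw
    rcases lt_trichotomy (v n) (w n) with h | h | h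
    · rw [abs_sub_comm]; exact key w v h
    · obtain ⟨i, hi, hne⟩ := hvw
      have hin : i < n := by
        rcases Nat.lt_succ_iff_lt_or_eq.1 hi with h' | rfl
        · exact h'
        · exact absurd h hne
      have h4 := h3 v w ⟨i, hin, hne⟩
      rw [W_update, W_update, h, ← sub_mul, abs_mul]
      have h5 : (1 : ℝ) ≤ |y ^ w n| := by
        rw [abs_of_nonneg (by positivity)]; exact one_le_pow₀ (by linarith)
      nlinarith [abs_nonneg (W a n v - W a n w)]
    · exact key v w h

/-- the initial segment -/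
noncomputable def a0 (i : ℕ) : ℝ := if i = 0 then ga else if i = 1 then gb else gc

theorem good_a0 : Good 3 a0 := by
  have h1 := ga_lower; have h2 := ga_upper; have h3 := gb_lower; have h4 := gb_upper
  have h5 := gc_lower
  refine ⟨?_, ?_, ?_⟩
  · intro i _
    unfold a0
    split_ifs <;> linarith
  · intro i j hij hj
    have : (i = 0 ∧ j = 1) ∨ (i = 0 ∧ j = 2) ∨ (i = 1 ∧ j = 2) := by omega
    rcases this with ⟨rfl, rfl⟩ | ⟨rfl, rfl⟩ | ⟨rfl, rfl⟩ <;> simp [a0] <;> linarith
  · intro v w hvw
    have e : ∀ v : ℕ → ℕ, W a0 3 v = mon (v 0) (v 1) (v 2) := by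
      intro v
      simp [W, a0, mon, Finset.prod_range_succ]
    rw [e, e]
    apply sep3
    rintro ⟨e0, e1, e2⟩
    obtain ⟨i, hi, hne⟩ := hvw
    have : i = 0 ∨ i = 1 ∨ i = 2 := by omega
    rcases this with rfl | rfl | rfl
    · exact hne e0
    · exact hne e1
    · exact hne e2

/-- the stages of the construction -/
noncomputable def st : (k : ℕ) → {a : ℕ → ℝ // Good (3 + k) a}
  | 0 => ⟨a0, good_a0⟩
  | k + 1 => ⟨Function.update (st k).1 (3 + k) (Classical.choose (step (3 + k) (st k).1 (st k).2)),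
      Classical.choose_spec (step (3 + k) (st k).1 (st k).2)⟩

/-- the stages as functions -/
noncomputable def sq (k : ℕ) : ℕ → ℝ := (st k).1

theorem sq_good (k : ℕ) : Good (3 + k) (sq k) := (st k).2

theorem sq_zero : sq 0 = a0 := rfl

theorem sq_succ (k i : ℕ) (hi : i < 3 + k) : sq (k + 1) i = sq k i := by
  show Function.update (st k).1 (3 + k) _ i = _
  rw [Function.update_of_ne hi.ne]
  rfl

theorem sq_mono (k m i : ℕ) (hi : i < 3 + k) : sq (k + m) i = sq k i := by
  induction m with
  | zero => rfl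
  | succ m ih =>
    rw [← add_assoc, sq_succ (k + m) i (by omega), ih]

/-- the sequence -/
noncomputable def A (i : ℕ) : ℝ := sq (i + 1) i

theorem A_eq (k i : ℕ) (hi : i < 3 + k) : A i = sq k i := by
  unfold A
  have h1 := sq_mono k (i + 1) i hi
  have h2 := sq_mono (i + 1) k i (by omega)
  rw [add_comm (i + 1) k] at h2
  rw [← h2, h1]

theorem A_sep (k l : ℕ →₀ ℕ) (h : k ≠ l) :
    1 ≤ |k.prod (fun i e => A i ^ e) - l.prod (fun i e => A i ^ e)| := by
  set n := (k.support ∪ l.support).sup id + 1 with hn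
  have hk : k.support ⊆ Finset.range (3 + n) := by
    intro i hi
    have : i ≤ (k.support ∪ l.support).sup id :=
      Finset.le_sup (f := id) (Finset.mem_union_left _ hi)
    exact Finset.mem_range.2 (by omega)
  have hl : l.support ⊆ Finset.range (3 + n) := by
    intro i hi
    have : i ≤ (k.support ∪ l.support).sup id :=
      Finset.le_sup (f := id) (Finset.mem_union_right _ hi)
    exact Finset.mem_range.2 (by omega)
  have e : ∀ m : ℕ →₀ ℕ, m.support ⊆ Finset.range (3 + n) →
      m.prod (fun i e => A i ^ e) = W (sq n) (3 + n) m := by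
    intro m hm
    rw [Finsupp.prod_of_support_subset m hm _ (fun i _ => pow_zero _)]
    refine Finset.prod_congr rfl fun i hi => ?_
    rw [A_eq n i (Finset.mem_range.1 hi)]
  rw [e k hk, e l hl]
  apply (sq_good n).2.2
  by_contra hcon
  push Not at hcon
  apply h
  ext i
  by_cases hi : i < 3 + n
  · exact hcon i hi
  · have h1 : i ∉ k.support := fun hh => hi (Finset.mem_range.1 (hk hh))
    have h2 : i ∉ l.support := fun hh => hi (Finset.mem_range.1 (hl hh))
    rw [Finsupp.notMem_support_iff.1 h1, Finsupp.notMem_support_iff.1 h2]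

theorem A_mono : StrictMono A := by
  intro i j hij
  rw [A_eq j i (by omega), A_eq j j (by omega)]
  exact (sq_good j).2.1 i j hij (by omega)

theorem A_zero : A 0 = ga := by rw [A_eq 0 0 (by norm_num), sq_zero]; simp [a0]
theorem A_two : A 2 = gc := by rw [A_eq 0 2 (by norm_num), sq_zero]; simp [a0]

theorem A_count : Set.ncard {i : ℕ | A i ≤ gc} = 3 := by
  have : {i : ℕ | A i ≤ gc} = ((Finset.range 3 : Finset ℕ) : Set ℕ) := by
    ext i
    rw [← A_two]
    simp only [Set.mem_ofPred_eq, Finset.coe_range, Set.mem_Iio]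
    rw [A_mono.le_iff_le]
    omega
  rw [this, Set.ncard_coe_finset]
  simp

end Pool.Agent.Helper17.WS
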