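import Mathlib

set_option autoImplicit false

namespace Pool.Agent.Helper17.WS

/-- the cube root of `2` -/
noncomputable def th : ℝ := (2 : ℝ) ^ (1 / 3 : ℝ)

theorem th_pos : 0 < th := by unfold th; positivity

theorem th_cube : th ^ 3 = 2 := by
  unfold th
  rw [← Real.rpow_natCast, ← Real.rpow_mul (by norm_num)]
  norm_num

theorem th_lower : (286 / 227 : ℝ) < th := by
  have h := th_cube
  by_contra hc
  push Not at hc
  have : th ^ 3 ≤ (286 / 227 : ℝ) ^ 3 := pow_le_pow_left₀ th_pos.le hc 3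
  rw [h] at this
  norm_num at this

theorem th_upper : th < (349 / 277 : ℝ) := by
  have h := th_cube
  by_contra hc
  push Not at hc
  have : (349 / 277 : ℝ) ^ 3 ≤ th ^ 3 := pow_le_pow_left₀ (by norm_num) hc 3
  rw [h] at this
  norm_num at this

theorem th2_lower : (781 / 492 : ℝ) < th ^ 2 := by
  have h := th_cube
  by_contra hc
  push Not at hc
  have : (th ^ 2) ^ 3 ≤ (781 / 492 : ℝ) ^ 3 := pow_le_pow_left₀ (by positivity) hc 3
  have e : (th ^ 2) ^ 3 = (th ^ 3) ^ 2 := by ring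
  rw [e, h] at this
  norm_num at this

theorem th2_upper : th ^ 2 < (227 / 143 : ℝ) := by
  have h := th_cube
  by_contra hc
  push Not at hc
  have : (227 / 143 : ℝ) ^ 3 ≤ (th ^ 2) ^ 3 := pow_le_pow_left₀ (by norm_num) hc 3
  have e : (th ^ 2) ^ 3 = (th ^ 3) ^ 2 := by ring
  rw [e, h] at this
  norm_num at this

/-- descent for the norm form -/
theorem norm_descent (n : ℕ) : ∀ x y z : ℤ, x ^ 3 + 2 * y ^ 3 + 4 * z ^ 3 - 6 * x * y * z = 0 →
    (2 : ℤ) ^ n ∣ x ∧ (2 : ℤ) ^ n ∣ y ∧ (2 : ℤ) ^ n ∣ z := by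
  have step : ∀ x y z : ℤ, x ^ 3 + 2 * y ^ 3 + 4 * z ^ 3 - 6 * x * y * z = 0 →
      ∃ x' : ℤ, x = 2 * x' ∧ y ^ 3 + 2 * z ^ 3 + 4 * x' ^ 3 - 6 * y * z * x' = 0 := by
    intro x y z h
    have h1 : (2 : ℤ) ∣ x ^ 3 := by
      refine ⟨-(y ^ 3 + 2 * z ^ 3 - 3 * x * y * z), ?_⟩
      linarith
    have h2 : (2 : ℤ) ∣ x := Int.prime_two.dvd_of_dvd_pow h1
    obtain ⟨x', rfl⟩ := h2
    refine ⟨x', rfl, ?_⟩
    nlinarith
  induction n with
  | zero => intro x y z _; simp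
  | succ n ih =>
    intro x y z h
    obtain ⟨x', rfl, h1⟩ := step x y z h
    obtain ⟨y', rfl, h2⟩ := step y z x' h1
    obtain ⟨z', rfl, h3⟩ := step z x' y' h2
    obtain ⟨i1, i2, i3⟩ := ih x' y' z' h3
    rw [pow_succ']
    exact ⟨mul_dvd_mul_left 2 i1, mul_dvd_mul_left 2 i2, mul_dvd_mul_left 2 i3⟩

theorem norm_ne_zero (x y z : ℤ) (h : ¬ (x = 0 ∧ y = 0 ∧ z = 0)) :
    x ^ 3 + 2 * y ^ 3 + 4 * z ^ 3 - 6 * x * y * z ≠ 0 := by
  intro h0
  apply h
  have key : ∀ u : ℤ, (∀ n : ℕ, (2 : ℤ) ^ n ∣ u) → u = 0 := by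
    intro u hu
    by_contra hne
    have h1 := Int.le_of_dvd (abs_pos.2 hne) ((dvd_abs _ _).2 (hu u.natAbs))
    have h2 : u.natAbs < 2 ^ u.natAbs := Nat.lt_two_pow_self
    have h3 : (|u| : ℤ) = (u.natAbs : ℤ) := Int.abs_eq_natAbs u
    rw [h3] at h1
    have h4 : ((u.natAbs : ℕ) : ℤ) < (2 : ℤ) ^ u.natAbs := by exact_mod_cast h2
    omega
  exact ⟨key x fun n => (norm_descent n x y z h0).1, key y fun n => (norm_descent n x y z h0).2.1,
    key z fun n => (norm_descent n x y z h0).2.2⟩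

/-- the exponents -/
noncomputable def ea : ℝ := 1 + th
noncomputable def eb : ℝ := 2 * th ^ 2
noncomputable def ec : ℝ := 3 * th

/-- the lower bound for the linear form -/
theorem linear_form (i j k : ℤ) (h : ¬ (i = 0 ∧ j = 0 ∧ k = 0)) :
    1 ≤ |i * ea + j * eb + k * ec| * (|i * ea| + |j * eb| + |k * ec|) ^ 2 := by
  set A : ℝ := i * ea with hA
  set B : ℝ := j * eb with hB
  set C : ℝ := k * ec with hC
  have hN : ((i : ℤ) ^ 3 + 2 * (i + 3 * k) ^ 3 + 4 * (2 * j) ^ 3 - 6 * i * (i + 3 * k) * (2 * j)) ≠ 0 := by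
    apply norm_ne_zero
    rintro ⟨h1, h2, h3⟩
    apply h
    refine ⟨h1, by omega, by omega⟩
  have hN1 : (1 : ℝ) ≤ |((i : ℝ) ^ 3 + 2 * (i + 3 * k) ^ 3 + 4 * (2 * j) ^ 3 -
      6 * i * (i + 3 * k) * (2 * j))| := by
    have h1 : (1 : ℤ) ≤ |((i : ℤ) ^ 3 + 2 * (i + 3 * k) ^ 3 + 4 * (2 * j) ^ 3 -
      6 * i * (i + 3 * k) * (2 * j))| := Int.one_le_abs hN
    exact_mod_cast h1
  -- the cofactor
  set Q : ℝ := (i : ℝ) ^ 2 - 2 * (i + 3 * k) * (2 * j) + (2 * (2 * j) ^ 2 - i * (i + 3 * k)) * th +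
    ((i + 3 * k) ^ 2 - i * (2 * j)) * th ^ 2 with hQ
  have hcube := th_cube
  have hprod : (A + B + C) * Q = (i : ℝ) ^ 3 + 2 * (i + 3 * k) ^ 3 + 4 * (2 * j) ^ 3 -
      6 * i * (i + 3 * k) * (2 * j) := by
    rw [hA, hB, hC, hQ, ea, eb, ec]
    have e4 : th ^ 4 = 2 * th := by rw [pow_succ, hcube]
    have : ∀ x y z t : ℝ, t ^ 3 = 2 → (x + y * t + z * t ^ 2) *
        (x ^ 2 - 2 * y * z + (2 * z ^ 2 - x * y) * t + (y ^ 2 - x * z) * t ^ 2) =
        x ^ 3 + 2 * y ^ 3 + 4 * z ^ 3 - 6 * x * y * z := by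
      intro x y z t ht
      have e4 : t ^ 4 = 2 * t := by rw [pow_succ, ht]
      linear_combination (x * y ^ 2 - x ^ 2 * z + 2 * y * z ^ 2 - x * y ^ 2 + y ^ 3 - x * y * z +
        2 * z ^ 3 - x * y * z + x ^ 2 * z - 2 * y * z ^ 2) * ht + (z * y ^ 2 - x * z ^ 2) * e4
    have h2 := this i (i + 3 * k) (2 * j) th hcube
    rw [← h2]
    ring
  have hθ1 : 0 < th := th_pos
  have hθ2 : (1 : ℝ) < th := lt_trans (by norm_num) th_lower
  have hQ0 : 0 ≤ Q ∧ Q ≤ (|A| + |B| + |C|) ^ 2 := by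
    -- `Q` as a quadratic form
    have hQ1 : Q = (i : ℝ) ^ 2 * (1 - th + th ^ 2) + C ^ 2 + B ^ 2 + i * C * (2 * th - 1) -
        i * B * (th + 1) - B * C := by
      rw [hQ, hB, hC, eb, ec]
      linear_combination (4 * (j : ℝ) ^ 2 * (-th) + 2 * i * j + 6 * j * k) * hcube
    have hQ2 : Q = ((i - (i * th + C)) ^ 2 + ((i * th + C) - B) ^ 2 + (B - i) ^ 2) / 2 := by
      rw [hQ1]; ring
    refine ⟨by rw [hQ2]; positivity, ?_⟩
    have hexp : (|A| + |B| + |C|) ^ 2 = A ^ 2 + B ^ 2 + C ^ 2 + 2 * |A| * |B| + 2 * |A| * |C| +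
        2 * |B| * |C| := by
      have := sq_abs A; have := sq_abs B; have := sq_abs C
      nlinarith
    have h1 : (i : ℝ) ^ 2 * (1 - th + th ^ 2) ≤ A ^ 2 := by
      rw [hA, ea, mul_pow]
      have : (0 : ℝ) ≤ (i : ℝ) ^ 2 := by positivity
      nlinarith
    have h2 : |(i : ℝ)| ≤ |A| := by
      rw [hA, abs_mul]
      have : (1 : ℝ) ≤ |ea| := by
        rw [ea, abs_of_pos (by linarith)]; linarith
      nlinarith [abs_nonneg (i : ℝ)]
    have h2' : |(i : ℝ)| * (th + 1) = |A| := by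
      rw [hA, abs_mul, ea, abs_of_pos (show (0 : ℝ) < 1 + th by linarith)]; ring
    have h3 : i * C * (2 * th - 1) ≤ 2 * |A| * |C| := by
      calc i * C * (2 * th - 1) ≤ |(i : ℝ) * C * (2 * th - 1)| := le_abs_self _
        _ = |(i : ℝ)| * |C| * (2 * th - 1) := by
            rw [abs_mul, abs_mul, abs_of_pos (show (0 : ℝ) < 2 * th - 1 by linarith)]
        _ ≤ |(i : ℝ)| * |C| * (2 * (th + 1)) := by
            apply mul_le_mul_of_nonneg_left (by linarith) (by positivity)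
        _ = 2 * (|(i : ℝ)| * (th + 1)) * |C| := by ring
        _ = 2 * |A| * |C| := by rw [h2']
    have h4 : -(i * B * (th + 1)) ≤ |A| * |B| := by
      calc -(i * B * (th + 1)) ≤ |(i : ℝ) * B * (th + 1)| := neg_le_abs _
        _ = |(i : ℝ)| * |B| * (th + 1) := by
            rw [abs_mul, abs_mul, abs_of_pos (show (0 : ℝ) < th + 1 by linarith)]
        _ = (|(i : ℝ)| * (th + 1)) * |B| := by ring
        _ = |A| * |B| := by rw [h2']
    have h5 : -(B * C) ≤ |B| * |C| := by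
      rw [← abs_mul]; exact neg_le_abs _
    rw [hQ1, hexp]
    have := abs_nonneg A; have := abs_nonneg B; have := abs_nonneg C
    nlinarith [mul_nonneg (abs_nonneg A) (abs_nonneg B), mul_nonneg (abs_nonneg B) (abs_nonneg C)]
  calc (1 : ℝ) ≤ |(A + B + C) * Q| := by rw [hprod]; exact hN1
    _ = |A + B + C| * Q := by rw [abs_mul, abs_of_nonneg hQ0.1]
    _ ≤ |A + B + C| * (|A| + |B| + |C|) ^ 2 :=
        mul_le_mul_of_nonneg_left hQ0.2 (abs_nonneg _)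

end Pool.Agent.Helper17.WS
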